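import Pool.Agent.Helper64.LN.GoalsC

set_option autoImplicit false

/-! Project LN (MP_2b9d24_gt), packet LN-FE: homeomorphisms with locally finite compact supports
act trivially on the ends. -/

open Topology Filter Set Metric

namespace Pool.Agent.Helper12.LN

open Pool.Agent.Helper64.LN
open Pool.Agent.Helper78.BigMap

theorem goalFE : GoalFE := by
  intro S _ _ W g hWc hWd hWlf hgW hgx ε hε K hK
  have hgK : IsCompact (g ⁻¹' K) := by
    rw [← g.image_symm]
    exact hK.image g.symm.continuous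
  set K2 : Set S := K ∪ g ⁻¹' K with hK2
  have hK2c : IsCompact K2 := hK.union hgK
  obtain ⟨y, hy, hyV⟩ := hε.1 K2 hK2c
  by_cases hex : ∃ x ∈ ε K2, ∀ i, x ∉ W i
  · obtain ⟨x, hxV, hxW⟩ := hex
    have hfix : g x = x := hgx x hxW
    have h1 : x ∈ ε K := hε.2 K K2 hK hK2c subset_union_left hxV
    have h2 : x ∈ ε (g ⁻¹' K) := hε.2 _ K2 hgK hK2c subset_union_right hxV
    obtain ⟨y1, -, e1⟩ := hε.1 K hK
    obtain ⟨y2, -, e2⟩ := hε.1 _ hgK
    rw [e1] at h1
    rw [e2] at h2
    have hx2 : x ∈ (g ⁻¹' K)ᶜ := connectedComponentIn_subset _ _ h2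
    rw [e1, e2, connectedComponentIn_eq h1, connectedComponentIn_eq h2,
      Homeomorph.image_connectedComponentIn g hx2, hfix]
    congr 1
    rw [← preimage_compl, g.image_preimage]
  · exfalso
    push Not at hex
    have hyin : y ∈ ε K2 := by
      rw [hyV]
      exact mem_connectedComponentIn hy
    obtain ⟨i, hi⟩ := hex y hyin
    have hpre : IsPreconnected (ε K2) := by
      rw [hyV]
      exact isPreconnected_connectedComponentIn
    have hcl : IsClosed (⋃ j : {j : ℕ // j ≠ i}, W j) := by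
      refine LocallyFinite.isClosed_iUnion ?_ fun j => (hWc j).isClosed
      exact hWlf.comp_injective Subtype.val_injective
    have hcov : ε K2 ⊆ W i ∪ ⋃ j : {j : ℕ // j ≠ i}, W j := by
      intro z hz
      obtain ⟨j, hj⟩ := hex z hz
      by_cases hji : j = i
      · exact Or.inl (hji ▸ hj)
      · exact Or.inr (mem_iUnion.2 ⟨⟨j, hji⟩, hj⟩)
    have hdis : ε K2 ∩ (W i ∩ ⋃ j : {j : ℕ // j ≠ i}, W j) = ∅ := by
      ext z
      simp only [mem_inter_iff, mem_empty_iff_false, iff_false]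
      rintro ⟨-, h1, h2⟩
      obtain ⟨⟨j, hj⟩, hyj⟩ := mem_iUnion.1 h2
      exact Set.disjoint_left.1 (hWd hj) hyj h1
    have hsub : ε K2 ⊆ W i := by
      rcases isPreconnected_iff_subset_of_disjoint_closed.1 hpre (W i)
        (⋃ j : {j : ℕ // j ≠ i}, W j) (hWc i).isClosed hcl hcov hdis with h | h
      · exact h
      · exfalso
        obtain ⟨⟨j, hj⟩, hyj⟩ := mem_iUnion.1 (h hyin)
        exact Set.disjoint_left.1 (hWd hj) hyj hi
    have hK3c : IsCompact (K2 ∪ W i) := hK2c.union (hWc i)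
    obtain ⟨w, hw, hwV⟩ := hε.1 _ hK3c
    have hwin : w ∈ ε (K2 ∪ W i) := by
      rw [hwV]
      exact mem_connectedComponentIn hw
    have h3 := hsub (hε.2 K2 _ hK2c hK3c subset_union_left hwin)
    exact hw (Or.inr h3)

end Pool.Agent.Helper12.LN
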