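import Pool.Agent.Helper64.LN.GoalsB

set_option autoImplicit false

/-! Project LN (MP_2b9d24_gt), packet LN-G3: local finiteness. -/

open Topology Filter Set Metric UpperHalfPlane
open scoped MatrixGroups

namespace Pool.Agent.Helper12.LN

open Pool.Agent.Helper64.LN

lemma tr_conj (h g : SL(2, ℝ)) :
    (h * g * h⁻¹) 0 0 + (h * g * h⁻¹) 1 1 = g 0 0 + g 1 1 := by
  have hdet := h.det_coe
  rw [Matrix.det_fin_two] at hdet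
  simp only [Matrix.SpecialLinearGroup.coe_mul, Matrix.SpecialLinearGroup.coe_inv,
    Matrix.adjugate_fin_two, Matrix.mul_apply, Fin.sum_univ_two, Matrix.of_apply,
    Matrix.cons_val', Matrix.cons_val_zero, Matrix.cons_val_one, Matrix.cons_val_fin_one]
  linear_combination (g 0 0 + g 1 1) * hdet

lemma per_int (a : SL(2, ℝ)) (α : ℝ → ℍ) (h : ∀ t, α (t + 1) = a • α t) (m : ℤ) :
    ∀ t, α (t + m) = a ^ m • α t := by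
  induction m using Int.induction_on with
  | zero =>
    intro t
    simp
  | succ i ih =>
    intro t
    have e : t + ((i : ℤ) + 1 : ℤ) = (t + (i : ℤ)) + 1 := by push_cast; ring
    rw [e, h, ih, zpow_add_one, ← mul_smul]
    congr 1
    exact ((Commute.refl a).zpow_right i).eq
  | pred i ih =>
    intro t
    have h1 := h (t + ((-(i : ℤ) - 1 : ℤ) : ℝ))
    have e : t + ((-(i : ℤ) - 1 : ℤ) : ℝ) + 1 = t + ((-(i : ℤ) : ℤ) : ℝ) := by push_cast; ring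
    rw [e, ih] at h1
    have h2 : α (t + ((-(i : ℤ) - 1 : ℤ) : ℝ)) = a⁻¹ • a ^ (-(i : ℤ)) • α t := by
      rw [h1, inv_smul_smul]
    rw [h2, ← mul_smul]
    congr 1
    rw [sub_eq_add_neg, add_comm, zpow_add, zpow_neg_one]

theorem goalG3 (hAX : GoalAX) (hCR3 : GoalCR3) : GoalG3 := by
  intro Γ hΓ e he a ha
  obtain ⟨e', he', rfl⟩ := he
  obtain ⟨a', ha', rfl⟩ := ha
  by_cases hex : ∃ g ∈ Γ.map mh, Cr Sp (mh e') (g * mh a' * g⁻¹)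
  swap
  · refine ⟨∅, Set.finite_empty, fun g hg hc => ?_⟩
    exact absurd ⟨g, hg, hc⟩ hex
  obtain ⟨_, ⟨g₀, hg₀, rfl⟩, hc₀⟩ := hex
  have hm0 : mh g₀ * mh a' * (mh g₀)⁻¹ = mh (g₀ * a' * g₀⁻¹) := by
    rw [map_mul, map_mul, map_inv]
  rw [hm0] at hc₀
  obtain ⟨te, ta, -⟩ := hCR3 Γ hΓ e' he' _ (Γ.mul_mem (Γ.mul_mem hg₀ ha') (Γ.inv_mem hg₀)) hc₀
  rw [tr_conj] at ta
  obtain ⟨α, α1, -, -, α4⟩ := hAX Γ hΓ a' ha' ta
  obtain ⟨β, β1, -, β3, -⟩ := hAX Γ hΓ e' he' te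
  set L : Set ℍ := α '' Icc (0 : ℝ) 1 ∪ β '' Icc (0 : ℝ) 1 with hL
  have hLc : IsCompact L :=
    (isCompact_Icc.image α.continuous).union (isCompact_Icc.image β.continuous)
  refine ⟨(fun h => mh h * mh a' * (mh h)⁻¹) '' {g : SL(2, ℝ) | g ∈ Γ ∧ ∃ z ∈ L, g • z ∈ L},
    (hΓ.disc L hLc).image _, ?_⟩
  rintro _ ⟨g, hg, rfl⟩ hc
  -- conjugate by `g⁻¹`
  have hc1 : Cr Sp (mh (g⁻¹ * e' * g)) (mh a') := by
    have h1 := (Cr_conj_iff (mh g)⁻¹ _ _).2 hc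
    have e1 : (mh g)⁻¹ * mh e' * ((mh g)⁻¹)⁻¹ = mh (g⁻¹ * e' * g) := by
      rw [map_mul, map_mul, map_inv, inv_inv]
    have e2 : (mh g)⁻¹ * (mh g * mh a' * (mh g)⁻¹) * ((mh g)⁻¹)⁻¹ = mh a' := by group
    rwa [e1, e2] at h1
  have hmem : g⁻¹ * e' * g ∈ Γ := Γ.mul_mem (Γ.mul_mem (Γ.inv_mem hg) he') hg
  obtain ⟨t1, -, n1⟩ := hCR3 Γ hΓ _ hmem _ ha' hc1
  obtain ⟨t, ht⟩ := (α4 _ hmem t1 n1).1 hc1
  have hs0 : sf e' (g • α t) = 0 := by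
    obtain ⟨c, hc0, hc2⟩ := sf_smul_pos g (g⁻¹ * e' * g) (α t)
    rw [ht, mul_zero] at hc2
    have e1 : g * (g⁻¹ * e' * g) * g⁻¹ = e' := by group
    rwa [e1] at hc2
  obtain ⟨s, hs⟩ := β3 _ hs0
  have at' : α t = a' ^ ⌊t⌋ • α (Int.fract t) := by
    rw [← per_int a' α α1, Int.fract_add_floor]
  have bs' : β s = e' ^ ⌊s⌋ • β (Int.fract s) := by
    rw [← per_int e' β β1, Int.fract_add_floor]
  have hfr : ∀ r : ℝ, Int.fract r ∈ Icc (0 : ℝ) 1 := fun r =>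
    ⟨Int.fract_nonneg r, (Int.fract_lt_one r).le⟩
  refine ⟨-⌊s⌋, e' ^ (-⌊s⌋) * g * a' ^ ⌊t⌋, ⟨Γ.mul_mem (Γ.mul_mem (Γ.zpow_mem he' _) hg)
    (Γ.zpow_mem ha' _), α (Int.fract t), Or.inl ⟨_, hfr t, rfl⟩, ?_⟩, ?_⟩
  · have h1 : (e' ^ (-⌊s⌋) * g * a' ^ ⌊t⌋) • α (Int.fract t) = β (Int.fract s) := by
      rw [mul_smul, mul_smul, ← at', ← hs, bs', ← mul_smul, ← zpow_add, neg_add_cancel, zpow_zero,
        one_smul]
    rw [h1]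
    exact Or.inr ⟨_, hfr s, rfl⟩
  · simp only [map_mul, map_zpow]
    have hcom : mh a' ^ ⌊t⌋ * mh a' = mh a' * mh a' ^ ⌊t⌋ :=
      ((Commute.refl (mh a')).zpow_left ⌊t⌋).eq
    have e1 : mh a' ^ ⌊t⌋ * mh a' * (mh a' ^ ⌊t⌋)⁻¹ = mh a' := by
      rw [hcom, mul_inv_cancel_right]
    calc mh e' ^ (-⌊s⌋) * mh g * mh a' ^ ⌊t⌋ * mh a' *
          (mh e' ^ (-⌊s⌋) * mh g * mh a' ^ ⌊t⌋)⁻¹
        = mh e' ^ (-⌊s⌋) * mh g * (mh a' ^ ⌊t⌋ * mh a' * (mh a' ^ ⌊t⌋)⁻¹) *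
          (mh e' ^ (-⌊s⌋) * mh g)⁻¹ := by group
      _ = mh e' ^ (-⌊s⌋) * (mh g * mh a' * (mh g)⁻¹) * (mh e' ^ (-⌊s⌋))⁻¹ := by
          rw [e1]
          group

end Pool.Agent.Helper12.LN
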